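import Pool.Agent.U18.UB.Stm
import Pool.Agent.T2H99.AW.ES

/-! Package ES of project KUS (helper18): the Efron-Stein inequality for product measures. -/

set_option autoImplicit false

namespace Pool.Agent.U27.KUS

open MeasureTheory ProbabilityTheory
open Pool.Agent.U18.UB

theorem t_ES : S_ES := by
  intro b m ν hν H h C hH hHb hh hhb hup
  have hm : ∀ i : Fin b, MeasurableSpace.comap (fun z : ∀ i, E (m i) => z i) inferInstance ≤
      (MeasurableSpace.pi : MeasurableSpace (∀ i, E (m i))) :=
    fun i => (measurable_pi_apply i).comap_le
  have hind : iIndep (fun i : Fin b =>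
      MeasurableSpace.comap (fun z : ∀ i, E (m i) => z i) inferInstance) (Measure.pi ν) := by
    have := iIndepFun_pi (μ := ν) (X := fun i (x : E (m i)) => x) (fun i => aemeasurable_id)
    exact this
  refine Pool.Agent.T2H99.AW.efron_stein (Measure.pi ν)
    (fun i : Fin b => MeasurableSpace.comap (fun z : ∀ i, E (m i) => z i) inferInstance) hm hind
    Finset.univ H h C ?_ hHb ?_ hhb
  · refine hH.mono ?_ le_rfl
    exact iSup_le fun i => le_iSup (fun x : (Finset.univ : Finset (Fin b)) =>
      MeasurableSpace.comap (fun z : ∀ i, E (m i) => z x) inferInstance) ⟨i, Finset.mem_univ i⟩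
  · intro i _
    have e : h i = fun z => h i (Function.update z i 0) := by
      funext z
      exact (hup i z 0).symm
    rw [e]
    refine (hh i).comp ?_
    refine (@measurable_pi_iff _ _ _ (_) _ _).mpr ?_
    intro j
    by_cases hj : j = i
    · subst hj
      simp only [Function.update_self]
      exact measurable_const
    · simp only [Function.update_of_ne hj]
      have h1 : Measurable[MeasurableSpace.comap (fun z : ∀ i, E (m i) => z j) inferInstance]
          (fun z : ∀ i, E (m i) => z j) := comap_measurable _
      refine h1.mono ?_ le_rfl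
      exact le_iSup (fun x : (Finset.univ.erase i : Finset (Fin b)) =>
        MeasurableSpace.comap (fun z : ∀ i, E (m i) => z x) inferInstance)
        ⟨j, Finset.mem_erase.mpr ⟨hj, Finset.mem_univ j⟩⟩

end Pool.Agent.U27.KUS
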